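import Mathlib
import Pool.Agent.W593.IR.Stm

/-!
# The critical inequality with constant `2`, from the two-point case
-/

set_option autoImplicit false

namespace Pool.Agent.W287.IR

open Finset Pool.Agent.W593.IR Pool.Agent.W890.SF

theorem sum_prod_pi {P : Type} [Fintype P] (π : P → ℝ) (h : ∑ p, π p = 1) (n : ℕ) :
    ∑ p : Fin n → P, ∏ i, π (p i) = 1 := by
  classical
  have h1 := Finset.prod_univ_sum (fun _ : Fin n => (univ : Finset P)) (fun _ p => π p)
  rw [Fintype.piFinset_univ] at h1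
  rw [← h1]
  simp [h]

theorem sum_init {P : Type} [Fintype P] (π : P → ℝ) (h : ∑ p, π p = 1) (r : ℕ)
    (F : (Fin r → P) → ℝ) :
    ∑ p : Fin r → P, (∏ i, π (p i)) * F p =
      ∑ p : Fin (r + 1) → P, (∏ i, π (p i)) * F (fun i => p i.castSucc) := by
  classical
  rw [← Equiv.sum_comp (Fin.snocEquiv (fun _ : Fin (r + 1) => P))
    (fun p : Fin (r + 1) → P => (∏ i, π (p i)) * F (fun i => p i.castSucc))]
  rw [Fintype.sum_prod_type, Finset.sum_comm]
  refine Finset.sum_congr rfl (fun q _ => ?_)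
  have h2 : ∀ p : P, (∏ i, π ((Fin.snocEquiv (fun _ : Fin (r + 1) => P)) (p, q) i)) *
      F (fun i => (Fin.snocEquiv (fun _ : Fin (r + 1) => P)) (p, q) i.castSucc) =
      π p * ((∏ i, π (q i)) * F q) := by
    intro p
    rw [Fin.prod_univ_castSucc]
    simp only [Fin.snocEquiv, Equiv.coe_fn_mk, Fin.snoc_castSucc, Fin.snoc_last]
    ring
  rw [Finset.sum_congr rfl (fun p _ => h2 p), ← Finset.sum_mul, h, one_mul]

theorem st2 (h1 : S_MIX1) (h2 : S_MIX2) (h3 : S_T2S) : S_ST2 := by
  classical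
  intro r hr V _ _ y hy hsum
  have hr0 : (0 : ℝ) < (r : ℝ) + 1 := by positivity
  have hN : (0 : ℝ) < (Fintype.card V : ℝ) := by exact_mod_cast Fintype.card_pos
  by_cases hc : ∀ v, y v = 1 / ((r : ℝ) + 1)
  · have he : {f : Fin r → V | 1 ≤ ∑ i, y (f i)} = ∅ := by
      ext f
      simp only [Set.mem_setOf_eq, Set.mem_empty_iff_false, iff_false, not_le]
      rw [Finset.sum_congr rfl (fun i _ => hc (f i))]
      rw [Finset.sum_const, Finset.card_univ, Fintype.card_fin, nsmul_eq_mul, mul_one_div,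
        div_lt_one hr0]
      linarith
    rw [he, Set.ncard_empty]
    simp
  · push Not at hc
    have hm : ∑ v, y v = 1 / ((r : ℝ) + 1) * (Fintype.card V : ℝ) := by
      rw [← hsum]
      field_simp
    obtain ⟨P, iP, π, a, b, q, hπ, hπ1, hab, hφ, -⟩ := h2 V y (1 / ((r : ℝ) + 1)) hy hm hc
    have e1 := h1 V P y π a b q hφ r
    have e2 := h1 V P y π a b q hφ (r + 1)
    have hcompl : (({f : Fin r → V | 1 ≤ ∑ i, y (f i)}.ncard : ℕ) : ℝ) =
        (Fintype.card V : ℝ) ^ r - (({f : Fin r → V | ∑ i, y (f i) < 1}.ncard : ℕ) : ℝ) := by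
      have h4 : {f : Fin r → V | 1 ≤ ∑ i, y (f i)} = {f : Fin r → V | ∑ i, y (f i) < 1}ᶜ := by
        ext f
        simp
      have h5 := Set.ncard_add_ncard_compl {f : Fin r → V | ∑ i, y (f i) < 1}
      rw [Nat.card_eq_fintype_card, Fintype.card_fun, Fintype.card_fin] at h5
      rw [h4, ← Nat.cast_pow, ← h5]
      push_cast
      ring
    have h6 := sum_init π hπ1 r (fun p => PP (fun i => a (p i)) (fun i => b (p i)) (fun i => q (p i)))
    have h7 := sum_prod_pi π hπ1 (r + 1)
    have h8 : 1 - ∑ p : Fin r → P, (∏ i, π (p i)) *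
        PP (fun i => a (p i)) (fun i => b (p i)) (fun i => q (p i)) ≤
        2 * ∑ p : Fin (r + 1) → P, (∏ i, π (p i)) *
          PP (fun i => a (p i)) (fun i => b (p i)) (fun i => q (p i)) := by
      rw [h6, ← h7, ← Finset.sum_sub_distrib, Finset.mul_sum]
      refine Finset.sum_le_sum (fun p _ => ?_)
      have h9 : 0 ≤ ∏ i, π (p i) := Finset.prod_nonneg (fun i _ => (hπ (p i)).le)
      have h10 := h3 r hr (fun i => a (p i)) (fun i => b (p i)) (fun i => q (p i))
        ⟨fun i => (hab (p i)).1, fun i => (hab (p i)).2.1, fun i => (hab (p i)).2.2.1,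
          fun i => (hab (p i)).2.2.2.1, fun i => (hab (p i)).2.2.2.2⟩
      have h11 := mul_le_mul_of_nonneg_left h10 h9
      linarith
    rw [hcompl, e1, e2]
    have h12 := mul_le_mul_of_nonneg_left h8 (pow_pos hN (r + 1)).le
    rw [pow_succ] at h12 ⊢
    linarith

end Pool.Agent.W287.IR
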